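import Pool.Agent.Y821.DD.Primes
import Pool.Agent.H264R2.Pigeon

/-!
# Sets of lattice points in which every distance is rare
-/

set_option autoImplicit false

namespace Pool.Agent.Y821.DD

open Finset Filter Topology Pool.Agent.H264R2.Pigeon

/-- the primes for `x = log n`, together with the facts about `n` that are used -/
theorem choose_n (c : ℝ) (h0 : 0 < c) (h : c < Real.log 2 / 2) :
    ∃ n₀ : ℕ, ∀ n : ℕ, n₀ ≤ n → ∃ P : Finset ℕ, ∃ th : ℝ,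
      (∀ p ∈ P, p.Prime ∧ p % 4 = 1) ∧ 2 * (∏ p ∈ P, (p : ℝ)) ≤ (n : ℝ) ^ th ∧
      8 * (∏ p ∈ P, ((1 + 1 / (p : ℝ)) / 2)) * (n : ℝ) ^ 2 ≤
        ((n : ℝ) ^ (1 - c / Real.log (Real.log n))) ^ 2 ∧
      (n : ℝ) ^ th ≤ (n : ℝ) ^ (1 - c / Real.log (Real.log n)) ∧ 4 ≤ n ∧
      2 ≤ (n : ℝ) ^ (1 - c / Real.log (Real.log n)) := by
  obtain ⟨th, hth0, hth1, hev⟩ := choose (2 * c) (by linarith) (by linarith)
  have hl : Tendsto (fun n : ℕ => Real.log n) atTop atTop :=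
    Real.tendsto_log_atTop.comp tendsto_natCast_atTop_atTop
  have hll : Tendsto (fun n : ℕ => Real.log (Real.log n)) atTop atTop :=
    Real.tendsto_log_atTop.comp hl
  have F1 := hl.eventually hev
  have F2 : ∀ᶠ n : ℕ in atTop, c / (1 - th) ≤ Real.log (Real.log n) := hll.eventually_ge_atTop _
  have F3 : ∀ᶠ n : ℕ in atTop, 2 * c + 1 ≤ Real.log (Real.log n) := hll.eventually_ge_atTop _
  obtain ⟨n₀, hn₀⟩ := eventually_atTop.1 (F1.and (F2.and (F3.and (eventually_ge_atTop 4))))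
  refine ⟨n₀, fun n hn => ?_⟩
  obtain ⟨⟨P, hP1, hP2, hP3⟩, f2, f3, f4⟩ := hn₀ n hn
  have hnR : (4 : ℝ) ≤ n := by exact_mod_cast f4
  have hn0 : (0 : ℝ) < n := by linarith
  have hL : 0 < Real.log (Real.log n) := by linarith
  have hc1 : c / Real.log (Real.log n) ≤ 1 - th := by
    rw [div_le_iff₀ (by linarith)] at f2
    rw [div_le_iff₀ hL]
    linarith
  have hc2 : c / Real.log (Real.log n) ≤ 1 / 2 := by
    rw [div_le_iff₀ hL]
    linarith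
  refine ⟨P, th, hP1, ?_, ?_, ?_, f4, ?_⟩
  · rw [Real.rpow_def_of_pos hn0, mul_comm (Real.log n)]
    exact hP2
  · have e : ((n : ℝ) ^ (1 - c / Real.log (Real.log n))) ^ 2 =
        Real.exp (-(2 * c * (Real.log n / Real.log (Real.log n)))) * (n : ℝ) ^ 2 := by
      rw [← Real.rpow_natCast, ← Real.rpow_mul hn0.le, Real.rpow_def_of_pos hn0]
      have : (n : ℝ) ^ 2 = Real.exp (2 * Real.log n) := by
        rw [mul_comm, Real.exp_mul, Real.exp_log hn0]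
        norm_cast
      rw [this, ← Real.exp_add]
      congr 1
      push_cast
      ring
    rw [e]
    exact mul_le_mul_of_nonneg_right hP3 (by positivity)
  · exact Real.rpow_le_rpow_of_exponent_le (by linarith) (by linarith)
  · have h2 : (2 : ℝ) = (4 : ℝ) ^ (1 / 2 : ℝ) := by
      rw [show (4 : ℝ) = 2 ^ (2 : ℝ) by norm_num, ← Real.rpow_mul (by norm_num)]
      norm_num
    calc (2 : ℝ) = (4 : ℝ) ^ (1 / 2 : ℝ) := h2
      _ ≤ (n : ℝ) ^ (1 / 2 : ℝ) := Real.rpow_le_rpow (by norm_num) hnR (by norm_num)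
      _ ≤ _ := Real.rpow_le_rpow_of_exponent_le (by linarith) (by linarith)

lemma prod_half (P : Finset ℕ) : ∏ p ∈ P, (1 + 1 / (p : ℝ)) =
    2 ^ P.card * ∏ p ∈ P, ((1 + 1 / (p : ℝ)) / 2) := by
  rw [← Finset.prod_const, ← Finset.prod_mul_distrib]
  refine Finset.prod_congr rfl fun p _ => ?_
  ring

/-- positive constants below `(log 2) / 2` -/
theorem distinct_pos (c : ℝ) (h0 : 0 < c) (h : c < Real.log 2 / 2) :
    ∃ n₀ : ℕ, ∀ n : ℕ, n₀ ≤ n → ∀ S : Finset (ℤ × ℤ),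
    (∀ a ∈ S, (1 ≤ a.1 ∧ a.1 ≤ n) ∧ (1 ≤ a.2 ∧ a.2 ≤ n)) → ∀ L : ℕ, 1 ≤ L →
    (∀ m : ℕ, 0 < m → ((S ×ˢ S).filter (fun x => nd x = m)).card ≤ 2 * L) →
    (S.card : ℝ) ≤ √(L : ℝ) * (n : ℝ) ^ (1 - c / Real.log (Real.log n)) := by
  obtain ⟨n₀, hn₀⟩ := choose_n c h0 h
  refine ⟨n₀, fun n hn S hS L hL1 hL => ?_⟩
  obtain ⟨P, th, hP, hd, hsav, hth, hn4, h2n⟩ := hn₀ n hn
  have hcore := core P hP n S hS (2 * L) hL
  rw [prod_half] at hcore
  obtain ⟨k, hk⟩ : ∃ k : ℝ, k = (S.card : ℝ) := ⟨_, rfl⟩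
  rw [← hk] at hcore ⊢
  have hk0 : 0 ≤ k := by rw [hk]; positivity
  obtain ⟨B, hB⟩ : ∃ B : ℝ, B = (n : ℝ) ^ (1 - c / Real.log (Real.log n)) := ⟨_, rfl⟩
  rw [← hB] at hsav hth h2n ⊢
  have hL1R : (1 : ℝ) ≤ L := by exact_mod_cast hL1
  have hs1 : 1 ≤ √(L : ℝ) := Real.one_le_sqrt.2 hL1R
  have hs2 : √(L : ℝ) ^ 2 = L := Real.sq_sqrt (by linarith)
  have hn0 : (0 : ℝ) ≤ n := by positivity
  by_cases hks : k < (n : ℝ) ^ th
  · have h1 : k ≤ B := hks.le.trans hth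
    nlinarith
  · push Not at hks
    have h2w : (0 : ℝ) < 2 ^ P.card := by positivity
    obtain ⟨Q, hQ⟩ : ∃ Q : ℝ, Q = ∏ p ∈ P, ((1 + 1 / (p : ℝ)) / 2) := ⟨_, rfl⟩
    obtain ⟨d, hdd⟩ : ∃ d : ℝ, d = ∏ p ∈ P, (p : ℝ) := ⟨_, rfl⟩
    rw [← hQ] at hsav hcore
    rw [← hdd] at hd hcore
    have h1 : (2 : ℝ) ^ P.card * k ^ 2 ≤ 2 ^ P.card * (d * k + 4 * L * (n : ℝ) ^ 2 * Q) := by
      refine hcore.trans (le_of_eq ?_)
      push_cast
      ring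
    have h2 := le_of_mul_le_mul_left h1 h2w
    have h3 : d * k ≤ k ^ 2 / 2 := by
      have : d ≤ k / 2 := by linarith
      nlinarith
    have h4 : k ^ 2 ≤ L * (8 * Q * (n : ℝ) ^ 2) := by linarith
    have h5 : k ^ 2 ≤ (√(L : ℝ) * B) ^ 2 := by
      rw [mul_pow, hs2]
      exact h4.trans (mul_le_mul_of_nonneg_left hsav (by linarith))
    exact (abs_le_of_sq_le_sq' h5 (by positivity)).2

/-- all constants below `(log 2) / 2` -/
theorem distinct (c : ℝ) (h : c < Real.log 2 / 2) :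
    ∃ n₀ : ℕ, ∀ n : ℕ, n₀ ≤ n → ∀ S : Finset (ℤ × ℤ),
    (∀ a ∈ S, (1 ≤ a.1 ∧ a.1 ≤ n) ∧ (1 ≤ a.2 ∧ a.2 ≤ n)) → ∀ L : ℕ, 1 ≤ L →
    (∀ m : ℕ, 0 < m → ((S ×ˢ S).filter (fun x => nd x = m)).card ≤ 2 * L) →
    (S.card : ℝ) ≤ √(L : ℝ) * (n : ℝ) ^ (1 - c / Real.log (Real.log n)) := by
  obtain ⟨c', hc', h'⟩ : ∃ c' : ℝ, max c 0 < c' ∧ c' < Real.log 2 / 2 :=
    exists_between (max_lt h (by have := Real.log_pos (show (1:ℝ) < 2 by norm_num); linarith))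
  obtain ⟨n₀, hn₀⟩ := distinct_pos c' ((le_max_right _ _).trans_lt hc') h'
  refine ⟨max n₀ 16, fun n hn S hS L hL1 hL => ?_⟩
  refine (hn₀ n ((le_max_left _ _).trans hn) S hS L hL1 hL).trans ?_
  have hn16 : (16 : ℝ) ≤ n := by exact_mod_cast (le_max_right _ _).trans hn
  have hl1 : 1 < Real.log n := by
    rw [Real.lt_log_iff_exp_lt (by linarith)]
    have := Real.exp_one_lt_d9
    linarith
  have hll : 0 < Real.log (Real.log n) := Real.log_pos hl1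
  refine mul_le_mul_of_nonneg_left ?_ (Real.sqrt_nonneg _)
  refine Real.rpow_le_rpow_of_exponent_le (by linarith) ?_
  have : c / Real.log (Real.log n) ≤ c' / Real.log (Real.log n) :=
    div_le_div_of_nonneg_right ((le_max_left _ _).trans hc'.le) hll.le
  linarith

end Pool.Agent.Y821.DD
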