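import Pool.Agent.Y821.DD.Grid

/-!
# Sets of lattice points without isosceles triangles
-/

set_option autoImplicit false

namespace Pool.Agent.Y821.DD

open Finset Filter Topology Pool.Agent.H264R2.Pigeon

/-- the primes for `x = 2 log n` -/
theorem choose_two (c : ℝ) (h0 : 0 < c) (h : c < 2 * Real.log 2) :
    ∃ n₀ : ℕ, ∀ n : ℕ, n₀ ≤ n → ∃ P : Finset ℕ,
      (∀ p ∈ P, p.Prime ∧ p % 4 = 1) ∧
      2 * (∏ p ∈ P, (p : ℝ)) ≤ (n : ℝ) ^ (2 - c / Real.log (Real.log n)) ∧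
      8 * (∏ p ∈ P, ((1 + 1 / (p : ℝ)) / 2)) * (n : ℝ) ^ 2 ≤
        (n : ℝ) ^ (2 - c / Real.log (Real.log n)) := by
  obtain ⟨lam, hlam1, hlam2⟩ := exists_between (show c / 2 < Real.log 2 by linarith)
  obtain ⟨th, hth0, hth1, hev⟩ := choose lam (by linarith) hlam2
  have hl : Tendsto (fun n : ℕ => Real.log n) atTop atTop :=
    Real.tendsto_log_atTop.comp tendsto_natCast_atTop_atTop
  have hll : Tendsto (fun n : ℕ => Real.log (Real.log n)) atTop atTop :=
    Real.tendsto_log_atTop.comp hl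
  have F1 := (hl.const_mul_atTop (show (0 : ℝ) < 2 by norm_num)).eventually hev
  have F2 : ∀ᶠ n : ℕ in atTop, c / (2 - 2 * th) ≤ Real.log (Real.log n) :=
    hll.eventually_ge_atTop _
  have F3 : ∀ᶠ n : ℕ in atTop, c * Real.log 2 / (2 * lam - c) ≤ Real.log (Real.log n) :=
    hll.eventually_ge_atTop _
  have F5 : ∀ᶠ n : ℕ in atTop, 1 ≤ Real.log (Real.log n) := hll.eventually_ge_atTop _
  obtain ⟨n₀, hn₀⟩ := eventually_atTop.1 (F1.and (F2.and (F3.and (F5.and
    (eventually_ge_atTop 4)))))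
  refine ⟨n₀, fun n hn => ?_⟩
  obtain ⟨⟨P, hP1, hP2, hP3⟩, f2, f3, f5, f4⟩ := hn₀ n hn
  have hnR : (4 : ℝ) ≤ n := by exact_mod_cast f4
  have hn0 : (0 : ℝ) < n := by linarith
  have hL : 0 < Real.log (Real.log n) := by linarith
  have hlogn : 0 < Real.log n := Real.log_pos (by linarith)
  have hc1 : c / Real.log (Real.log n) ≤ 2 - 2 * th := by
    rw [div_le_iff₀ (by linarith)] at f2
    rw [div_le_iff₀ hL]
    linarith
  refine ⟨P, hP1, ?_, ?_⟩
  · refine hP2.trans ?_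
    rw [Real.rpow_def_of_pos hn0]
    apply Real.exp_le_exp.2
    nlinarith
  · have e : (n : ℝ) ^ (2 - c / Real.log (Real.log n)) =
        Real.exp (-(c * (Real.log n / Real.log (Real.log n)))) * (n : ℝ) ^ 2 := by
      rw [Real.rpow_def_of_pos hn0]
      have : (n : ℝ) ^ 2 = Real.exp (2 * Real.log n) := by
        rw [mul_comm, Real.exp_mul, Real.exp_log hn0]
        norm_cast
      rw [this, ← Real.exp_add]
      congr 1
      ring
    rw [e]
    refine mul_le_mul_of_nonneg_right (hP3.trans (Real.exp_le_exp.2 (neg_le_neg ?_)))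
      (by positivity)
    have hlog2 : Real.log (2 * Real.log n) = Real.log 2 + Real.log (Real.log n) :=
      Real.log_mul (by norm_num) hlogn.ne'
    rw [hlog2]
    have hlt : 0 < Real.log 2 := Real.log_pos (by norm_num)
    rw [div_le_iff₀ (by linarith)] at f3
    have h1 : c * (Real.log n / Real.log (Real.log n)) =
        (c * Real.log n) / Real.log (Real.log n) := by ring
    have h2 : lam * (2 * Real.log n / (Real.log 2 + Real.log (Real.log n))) =
        (lam * (2 * Real.log n)) / (Real.log 2 + Real.log (Real.log n)) := by ring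
    rw [h1, h2, div_le_div_iff₀ hL (by linarith)]
    have h3 : c * (Real.log 2 + Real.log (Real.log n)) ≤ 2 * lam * Real.log (Real.log n) := by
      linarith
    calc c * Real.log n * (Real.log 2 + Real.log (Real.log n)) =
        Real.log n * (c * (Real.log 2 + Real.log (Real.log n))) := by ring
      _ ≤ Real.log n * (2 * lam * Real.log (Real.log n)) := mul_le_mul_of_nonneg_left h3 hlogn.le
      _ = lam * (2 * Real.log n) * Real.log (Real.log n) := by ring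

/-- sets all whose circles (centred at a point of the set) contain at most `L` points of the set,
positive constants -/
theorem iso_pos (c : ℝ) (h0 : 0 < c) (h : c < 2 * Real.log 2) :
    ∃ n₀ : ℕ, ∀ n : ℕ, n₀ ≤ n → ∀ S : Finset (ℤ × ℤ),
    (∀ a ∈ S, (1 ≤ a.1 ∧ a.1 ≤ n) ∧ (1 ≤ a.2 ∧ a.2 ≤ n)) → ∀ L : ℕ, 1 ≤ L →
    (∀ m : ℕ, 0 < m → ((S ×ˢ S).filter (fun x => nd x = m)).card ≤ L * S.card) →
    (S.card : ℝ) ≤ L * (n : ℝ) ^ (2 - c / Real.log (Real.log n)) := by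
  obtain ⟨n₀, hn₀⟩ := choose_two c h0 h
  refine ⟨n₀, fun n hn S hS L hL1 hL => ?_⟩
  obtain ⟨P, hP, hd, hsav⟩ := hn₀ n hn
  have hcore := core P hP n S hS (L * S.card) hL
  rw [prod_half] at hcore
  obtain ⟨k, hk⟩ : ∃ k : ℝ, k = (S.card : ℝ) := ⟨_, rfl⟩
  obtain ⟨B, hB⟩ : ∃ B : ℝ, B = (n : ℝ) ^ (2 - c / Real.log (Real.log n)) := ⟨_, rfl⟩
  rw [← hB] at hsav hd ⊢
  obtain ⟨Q, hQ⟩ : ∃ Q : ℝ, Q = ∏ p ∈ P, ((1 + 1 / (p : ℝ)) / 2) := ⟨_, rfl⟩
  obtain ⟨d, hdd⟩ : ∃ d : ℝ, d = ∏ p ∈ P, (p : ℝ) := ⟨_, rfl⟩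
  rw [← hQ] at hsav hcore
  rw [← hdd] at hd hcore
  push_cast at hcore
  rw [← hk] at hcore ⊢
  have hd0 : 0 ≤ d := by rw [hdd]; exact Finset.prod_nonneg fun p _ => by positivity
  have hQ0 : 0 ≤ Q := by rw [hQ]; exact Finset.prod_nonneg fun p _ => by positivity
  have hB0 : 0 ≤ B := by rw [hB]; positivity
  have hL1R : (1 : ℝ) ≤ L := by exact_mod_cast hL1
  rcases Nat.eq_zero_or_pos S.card with h00 | hpos
  · rw [hk, h00]
    simp only [Nat.cast_zero]
    positivity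
  have hk0 : 0 < k := by rw [hk]; exact_mod_cast hpos
  have h2w : (0 : ℝ) < 2 ^ P.card := by positivity
  have h1 : ((2 : ℝ) ^ P.card * k) * k ≤ ((2 : ℝ) ^ P.card * k) * (d + L * (2 * (n : ℝ) ^ 2 * Q)) := by
    calc ((2 : ℝ) ^ P.card * k) * k = 2 ^ P.card * k ^ 2 := by ring
      _ ≤ _ := hcore
      _ = _ := by ring
  have h2 := le_of_mul_le_mul_left h1 (by positivity)
  have h3 : (L : ℝ) * (2 * (n : ℝ) ^ 2 * Q) ≤ L * (B / 4) :=
    mul_le_mul_of_nonneg_left (by linarith) (by linarith)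
  have h4 : B / 2 ≤ L * (B / 2) := by nlinarith
  nlinarith

/-- all constants below `2 log 2` -/
theorem iso (c : ℝ) (h : c < 2 * Real.log 2) :
    ∃ n₀ : ℕ, ∀ n : ℕ, n₀ ≤ n → ∀ S : Finset (ℤ × ℤ),
    (∀ a ∈ S, (1 ≤ a.1 ∧ a.1 ≤ n) ∧ (1 ≤ a.2 ∧ a.2 ≤ n)) → ∀ L : ℕ, 1 ≤ L →
    (∀ m : ℕ, 0 < m → ((S ×ˢ S).filter (fun x => nd x = m)).card ≤ L * S.card) →
    (S.card : ℝ) ≤ L * (n : ℝ) ^ (2 - c / Real.log (Real.log n)) := by
  obtain ⟨c', hc', h'⟩ : ∃ c' : ℝ, max c 0 < c' ∧ c' < 2 * Real.log 2 :=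
    exists_between (max_lt h (by have := Real.log_pos (show (1:ℝ) < 2 by norm_num); linarith))
  obtain ⟨n₀, hn₀⟩ := iso_pos c' ((le_max_right _ _).trans_lt hc') h'
  refine ⟨max n₀ 16, fun n hn S hS L hL1 hL => ?_⟩
  refine (hn₀ n ((le_max_left _ _).trans hn) S hS L hL1 hL).trans ?_
  have hn16 : (16 : ℝ) ≤ n := by exact_mod_cast (le_max_right _ _).trans hn
  have hl1 : 1 < Real.log n := by
    rw [Real.lt_log_iff_exp_lt (by linarith)]
    have := Real.exp_one_lt_d9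
    linarith
  have hll : 0 < Real.log (Real.log n) := Real.log_pos hl1
  refine mul_le_mul_of_nonneg_left ?_ (Nat.cast_nonneg _)
  refine Real.rpow_le_rpow_of_exponent_le (by linarith) ?_
  have : c / Real.log (Real.log n) ≤ c' / Real.log (Real.log n) :=
    div_le_div_of_nonneg_right ((le_max_left _ _).trans hc'.le) hll.le
  linarith

end Pool.Agent.Y821.DD
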