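import Pool.Agent.Y821.DD.Quad
import Pool.Agent.H264R2.Pigeon

/-!
# A large subset of the grid without isosceles triangles
-/

set_option autoImplicit false

namespace Pool.Agent.Y821.DD

open Finset Pool.Agent.H264R2.Pigeon

section Wt

variable {V : Type} [Fintype V] [DecidableEq V]

/-- the weight of a subset in the product measure -/
def wt (p : ℝ) (t : Finset V) : ℝ := (∏ _i ∈ t, p) * ∏ _i ∈ univ \ t, (1 - p)

lemma wt_nonneg {p : ℝ} (h0 : 0 ≤ p) (h1 : p ≤ 1) (t : Finset V) : 0 ≤ wt p t :=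
  mul_nonneg (Finset.prod_nonneg fun _ _ => h0)
    (Finset.prod_nonneg fun _ _ => by linarith)

lemma wt_sub (p : ℝ) (Z : Finset V) :
    ∑ t : Finset V, (if Z ⊆ t then wt p t else 0) = p ^ Z.card := by
  classical
  have h := Finset.prod_add (fun _ : V => p) (fun i => if i ∈ Z then (0 : ℝ) else 1 - p)
    (Finset.univ : Finset V)
  have e1 : ∏ i : V, (p + if i ∈ Z then (0 : ℝ) else 1 - p) = p ^ Z.card := by
    rw [← Finset.prod_filter_mul_prod_filter_not Finset.univ (fun i => i ∈ Z)]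
    have a1 : ∏ i ∈ Finset.univ.filter (fun i => i ∈ Z), (p + if i ∈ Z then (0 : ℝ) else 1 - p) =
        p ^ Z.card := by
      rw [Finset.filter_mem_eq_inter, Finset.univ_inter, ← Finset.prod_const]
      exact Finset.prod_congr rfl fun i hi => by simp [hi]
    have a2 : ∏ i ∈ Finset.univ.filter (fun i => i ∉ Z), (p + if i ∈ Z then (0 : ℝ) else 1 - p) =
        1 := by
      apply Finset.prod_eq_one
      intro i hi
      have hi' : i ∉ Z := (Finset.mem_filter.1 hi).2
      simp [hi']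
    rw [a1, a2, mul_one]
  rw [e1] at h
  rw [h, Finset.powerset_univ]
  apply Finset.sum_congr rfl
  intro t _
  unfold wt
  split_ifs with hZ
  · congr 1
    apply Finset.prod_congr rfl
    intro i hi
    have : i ∉ Z := fun hi' => (Finset.mem_sdiff.1 hi).2 (hZ hi')
    simp [this]
  · obtain ⟨i, hi, hit⟩ := Finset.not_subset.1 hZ
    have : ∏ i ∈ univ \ t, (if i ∈ Z then (0 : ℝ) else 1 - p) = 0 :=
      Finset.prod_eq_zero (Finset.mem_sdiff.2 ⟨Finset.mem_univ i, hit⟩) (by simp [hi])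
    rw [this, mul_zero]

lemma wt_one (p : ℝ) : ∑ t : Finset V, wt p t = 1 := by
  have := wt_sub (V := V) p ∅
  simpa using this

/-- deletion: a set with many more elements than triples -/
theorem deletion (E : Finset (V × V × V)) (hE : ∀ e ∈ E, e.1 ≠ e.2.1 ∧ e.1 ≠ e.2.2 ∧ e.2.1 ≠ e.2.2)
    (p : ℝ) (h0 : 0 ≤ p) (h1 : p ≤ 1) :
    ∃ A : Finset V, (∀ e ∈ E, ¬ (e.1 ∈ A ∧ e.2.1 ∈ A ∧ e.2.2 ∈ A)) ∧
      p * (Fintype.card V : ℝ) - p ^ 3 * E.card ≤ A.card := by
  classical
  obtain ⟨g, hg⟩ : ∃ g : Finset V → ℝ, g = fun t => (t.card : ℝ) -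
      ((E.filter (fun e => ({e.1, e.2.1, e.2.2} : Finset V) ⊆ t)).card : ℝ) := ⟨_, rfl⟩
  have hsum : ∑ t : Finset V, wt p t * g t = p * (Fintype.card V : ℝ) - p ^ 3 * E.card := by
    have e1 : ∑ t : Finset V, wt p t * (t.card : ℝ) = p * (Fintype.card V : ℝ) := by
      have h2 : ∀ t : Finset V, wt p t * (t.card : ℝ) =
          ∑ v : V, (if ({v} : Finset V) ⊆ t then wt p t else 0) := by
        intro t
        rw [← Finset.sum_filter, Finset.sum_const, nsmul_eq_mul, mul_comm]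
        congr 2
        simp
      rw [Finset.sum_congr rfl (fun t _ => h2 t), Finset.sum_comm]
      have h3 : ∀ v ∈ (univ : Finset V), ∑ t : Finset V,
          (if ({v} : Finset V) ⊆ t then wt p t else 0) = p := by
        intro v _
        rw [wt_sub, card_singleton, pow_one]
      rw [Finset.sum_congr rfl h3, Finset.sum_const, nsmul_eq_mul, mul_comm]
      simp
    have e2 : ∑ t : Finset V, wt p t *
        ((E.filter (fun e => ({e.1, e.2.1, e.2.2} : Finset V) ⊆ t)).card : ℝ) = p ^ 3 * E.card := by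
      have h2 : ∀ t : Finset V, wt p t *
          ((E.filter (fun e => ({e.1, e.2.1, e.2.2} : Finset V) ⊆ t)).card : ℝ) =
          ∑ e ∈ E, (if ({e.1, e.2.1, e.2.2} : Finset V) ⊆ t then wt p t else 0) := by
        intro t
        rw [← Finset.sum_filter, Finset.sum_const, nsmul_eq_mul, mul_comm]
      rw [Finset.sum_congr rfl (fun t _ => h2 t), Finset.sum_comm]
      have h3 : ∀ e ∈ E, ∑ t : Finset V,
          (if ({e.1, e.2.1, e.2.2} : Finset V) ⊆ t then wt p t else 0) = p ^ 3 := by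
        intro e he
        obtain ⟨n1, n2, n3⟩ := hE e he
        rw [wt_sub]
        congr 1
        rw [card_insert_of_notMem, card_insert_of_notMem, card_singleton]
        · simpa using n3
        · simp only [mem_insert, mem_singleton, not_or]
          exact ⟨n1, n2⟩
      rw [Finset.sum_congr rfl h3, Finset.sum_const, nsmul_eq_mul, mul_comm]
    rw [hg]
    simp only [mul_sub]
    rw [Finset.sum_sub_distrib, e1, e2]
  have hex : ∃ t : Finset V, p * (Fintype.card V : ℝ) - p ^ 3 * E.card ≤ g t := by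
    by_contra hcon
    push Not at hcon
    have h2 : ∑ t : Finset V, wt p t * g t < ∑ t : Finset V, wt p t *
        (p * (Fintype.card V : ℝ) - p ^ 3 * E.card) := by
      refine Finset.sum_lt_sum (fun t _ => mul_le_mul_of_nonneg_left (hcon t).le
        (wt_nonneg h0 h1 t)) ?_
      by_contra hno
      push Not at hno
      have h3 : ∀ t : Finset V, wt p t = 0 := by
        intro t
        have h4 := hno t (mem_univ t)
        have h5 := hcon t
        by_contra hne
        have h6 : 0 < wt p t := lt_of_le_of_ne (wt_nonneg h0 h1 t) (Ne.symm hne)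
        nlinarith
      have h7 := wt_one (V := V) p
      simp [h3] at h7
    rw [← Finset.sum_mul, wt_one, one_mul, hsum] at h2
    exact lt_irrefl _ h2
  obtain ⟨t, ht⟩ := hex
  refine ⟨t \ (E.filter (fun e => ({e.1, e.2.1, e.2.2} : Finset V) ⊆ t)).image Prod.fst, ?_, ?_⟩
  · rintro e he ⟨h2, h3, h4⟩
    rw [mem_sdiff] at h2 h3 h4
    apply h2.2
    rw [mem_image]
    refine ⟨e, ?_, rfl⟩
    rw [mem_filter]
    refine ⟨he, ?_⟩
    intro v hv
    simp only [mem_insert, mem_singleton] at hv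
    rcases hv with rfl | rfl | rfl
    · exact h2.1
    · exact h3.1
    · exact h4.1
  · refine ht.trans ?_
    rw [hg]
    simp only
    have h2 : t.card ≤ (t \ (E.filter (fun e => ({e.1, e.2.1, e.2.2} : Finset V) ⊆ t)).image
        Prod.fst).card + (E.filter (fun e => ({e.1, e.2.1, e.2.2} : Finset V) ⊆ t)).card := by
      have h3 := Finset.card_le_card_sdiff_add_card (t := (E.filter (fun e =>
        ({e.1, e.2.1, e.2.2} : Finset V) ⊆ t)).image Prod.fst) (s := t)
      exact h3.trans (Nat.add_le_add_left card_image_le _)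
    have h3 : (t.card : ℝ) ≤ ((t \ (E.filter (fun e => ({e.1, e.2.1, e.2.2} : Finset V) ⊆ t)).image
        Prod.fst).card : ℝ) + ((E.filter (fun e => ({e.1, e.2.1, e.2.2} : Finset V) ⊆ t)).card : ℝ) := by
      exact_mod_cast h2
    linarith

end Wt

/-- the point of the grid with given indices -/
def pt (N : ℕ) (v : Fin N × Fin N) : ℤ × ℤ := ((v.1 : ℤ) + 1, (v.2 : ℤ) + 1)

lemma pt_inj (N : ℕ) : Function.Injective (pt N) := by
  rintro ⟨a, b⟩ ⟨c, d⟩ h
  unfold pt at h
  simp only [Prod.mk.injEq] at h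
  refine Prod.ext (Fin.ext ?_) (Fin.ext ?_)
  · simp only; omega
  · simp only; omega

/-- the isosceles triples -/
noncomputable def Iso3 (N : ℕ) : Finset ((Fin N × Fin N) × (Fin N × Fin N) × (Fin N × Fin N)) := by
  classical
  exact univ.filter (fun e => (e.1 ≠ e.2.1 ∧ e.1 ≠ e.2.2 ∧ e.2.1 ≠ e.2.2) ∧
    N2 (pt N e.1 - pt N e.2.1) = N2 (pt N e.1 - pt N e.2.2))

lemma Iso3_card (N : ℕ) : (Iso3 N).card ≤ (Qi (2 * N)).card * (N * N) := by
  classical
  have hV : (univ : Finset (Fin N × Fin N)).card = N * N := by simp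
  rw [← hV]
  refine Finset.card_le_mul_card_image_of_maps_to (f := Prod.fst) (t := univ)
    (fun _ _ => mem_univ _) _ ?_
  intro a _
  refine Finset.card_le_card_of_injOn (fun e =>
    (((e.2.1.1 : ℤ) - a.1) - ((e.2.2.1 : ℤ) - a.1), ((e.2.1.1 : ℤ) - a.1) + ((e.2.2.1 : ℤ) - a.1),
      ((e.2.2.2 : ℤ) - a.2) - ((e.2.1.2 : ℤ) - a.2), ((e.2.2.2 : ℤ) - a.2) + ((e.2.1.2 : ℤ) - a.2)))
    ?_ ?_
  · rintro ⟨a', b, c⟩ he
    simp only [Iso3, coe_filter, mem_filter, mem_univ, true_and, Set.mem_ofPred_eq] at he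
    obtain ⟨⟨-, he⟩, rfl⟩ := he
    unfold N2 pt at he
    simp only [Prod.fst_sub, Prod.snd_sub] at he
    have b1 := b.1.isLt
    have b2 := b.2.isLt
    have c1 := c.1.isLt
    have c2 := c.2.isLt
    have a1 := a'.1.isLt
    have a2 := a'.2.isLt
    simp only [Qi, Bx, mem_coe, mem_filter, mem_product, mem_Icc]
    refine ⟨⟨⟨by push_cast; omega, by push_cast; omega⟩, ⟨by push_cast; omega, by push_cast; omega⟩,
      ⟨by push_cast; omega, by push_cast; omega⟩, ⟨by push_cast; omega, by push_cast; omega⟩⟩, ?_⟩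
    linear_combination he
  · rintro ⟨a', b, c⟩ he ⟨a'', b', c'⟩ he' heq
    simp only [Iso3, coe_filter, mem_filter, mem_univ, true_and, Set.mem_ofPred_eq] at he he'
    obtain ⟨-, rfl⟩ := he
    obtain ⟨-, h2⟩ := he'
    subst h2
    simp only [Prod.mk.injEq] at heq
    obtain ⟨q1, q2, q3, q4⟩ := heq
    have r1 : b.1 = b'.1 := Fin.ext (by omega)
    have r2 : b.2 = b'.2 := Fin.ext (by omega)
    have r3 : c.1 = c'.1 := Fin.ext (by omega)
    have r4 : c.2 = c'.2 := Fin.ext (by omega)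
    exact Prod.ext rfl (Prod.ext (Prod.ext r1 r2) (Prod.ext r3 r4))

/-- the number of isosceles triples of the grid is at most `C N⁴ log N` -/
lemma Iso3_bound (N : ℕ) (hN : 2 ≤ N) : ((Iso3 N).card : ℝ) ≤ 1088 * ((N : ℝ) ^ 4 * Real.log N) := by
  have h1 : ((Iso3 N).card : ℝ) ≤ ((Qi (2 * N)).card : ℝ) * ((N : ℝ) * N) := by
    exact_mod_cast Iso3_card N
  have h2 := Qi_card (2 * N) (by omega)
  have hN2 : (2 : ℝ) ≤ N := by exact_mod_cast hN
  have hl2 : Real.log 2 ≤ Real.log N := Real.log_le_log (by norm_num) hN2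
  have hlog2 : 0.6931471803 < Real.log 2 := Real.log_two_gt_d9
  have h3 : Real.log ((2 * N : ℕ) : ℝ) = Real.log 2 + Real.log N := by
    push_cast
    rw [Real.log_mul (by norm_num) (by linarith)]
  rw [h3] at h2
  push_cast at h2
  have h4 : (1 : ℝ) + (Real.log 2 + Real.log N) ≤ 4 * Real.log N := by linarith
  have h5 : 68 * ((2 * (N : ℝ)) ^ 2 * (1 + (Real.log 2 + Real.log N))) ≤
      1088 * ((N : ℝ) ^ 2 * Real.log N) := by
    have h6 : (2 * (N : ℝ)) ^ 2 * (1 + (Real.log 2 + Real.log N)) ≤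
        (2 * (N : ℝ)) ^ 2 * (4 * Real.log N) := mul_le_mul_of_nonneg_left h4 (by positivity)
    nlinarith
  calc ((Iso3 N).card : ℝ) ≤ ((Qi (2 * N)).card : ℝ) * ((N : ℝ) * N) := h1
    _ ≤ (1088 * ((N : ℝ) ^ 2 * Real.log N)) * ((N : ℝ) * N) :=
        mul_le_mul_of_nonneg_right (h2.trans h5) (by positivity)
    _ = _ := by ring

/-- there is a set of `c N / √(log N)` points of the grid without isosceles triangles -/
theorem exists_set (N : ℕ) (hN : 2 ≤ N) : ∃ A : Finset (Fin N × Fin N),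
    (∀ a ∈ A, ∀ b ∈ A, ∀ c ∈ A, a ≠ b → a ≠ c → b ≠ c →
      N2 (pt N a - pt N b) ≠ N2 (pt N a - pt N c)) ∧
    (N : ℝ) / (100 * √(Real.log N)) ≤ A.card := by
  classical
  have hN2 : (2 : ℝ) ≤ N := by exact_mod_cast hN
  have hl2 : Real.log 2 ≤ Real.log N := Real.log_le_log (by norm_num) hN2
  have hlog2 : 0.6931471803 < Real.log 2 := Real.log_two_gt_d9
  obtain ⟨r, hr⟩ : ∃ r : ℝ, r = √(Real.log N) := ⟨_, rfl⟩
  have hr2 : r ^ 2 = Real.log N := by rw [hr]; exact Real.sq_sqrt (by linarith)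
  have hr0 : 1 / 2 < r := by
    rw [hr]
    apply Real.lt_sqrt_of_sq_lt
    norm_num
    linarith
  obtain ⟨p, hp⟩ : ∃ p : ℝ, p = 1 / (47 * N * r) := ⟨_, rfl⟩
  have hp0 : 0 < p := by rw [hp]; positivity
  have hp1 : p ≤ 1 := by
    rw [hp, div_le_one (by positivity)]
    nlinarith
  have hE : ∀ e ∈ Iso3 N, e.1 ≠ e.2.1 ∧ e.1 ≠ e.2.2 ∧ e.2.1 ≠ e.2.2 := by
    intro e he
    simp only [Iso3, mem_filter, mem_univ, true_and] at he
    exact he.1
  obtain ⟨A, hA1, hA2⟩ := deletion (Iso3 N) hE p hp0.le hp1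
  refine ⟨A, ?_, ?_⟩
  · intro a ha b hb c hc hab hac hbc h
    refine hA1 (a, b, c) ?_ ⟨ha, hb, hc⟩
    simp only [Iso3, mem_filter, mem_univ, true_and]
    exact ⟨⟨hab, hac, hbc⟩, h⟩
  · refine le_trans ?_ hA2
    have hcard : (Fintype.card (Fin N × Fin N) : ℝ) = (N : ℝ) * N := by simp
    rw [hcard, ← hr]
    have h3 := Iso3_bound N hN
    rw [← hr2] at h3
    have h4 : p ^ 3 * ((Iso3 N).card : ℝ) ≤ p ^ 3 * (1088 * ((N : ℝ) ^ 4 * r ^ 2)) :=
      mul_le_mul_of_nonneg_left h3 (by positivity)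
    have h5 : p ^ 3 * (1088 * ((N : ℝ) ^ 4 * r ^ 2)) = (1088 / 103823) * (N / r) := by
      rw [hp]
      field_simp
      norm_num
    have h6 : p * ((N : ℝ) * N) = (1 / 47) * (N / r) := by
      rw [hp]
      field_simp
    have h7 : (N : ℝ) / (100 * r) = (1 / 100) * (N / r) := by
      field_simp
    rw [h7, h6]
    have h8 : 0 < (N : ℝ) / r := by positivity
    rw [h5] at h4
    linarith

end Pool.Agent.Y821.DD
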