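import Mathlib
import Pool.Agent.Helper923.PNT

/-!
# Many small primes congruent to one modulo four

For every `lam < log 2` there is `th < 1` such that for all large `x` some set `P` of primes
congruent to `1` modulo `4` satisfies `2 ∏ p ≤ exp (th x)` and
`8 ∏ (1 + 1/p) / 2 ≤ exp (-lam x / log x)`.
-/

set_option autoImplicit false

namespace Pool.Agent.Y821.DD

open Finset Filter Topology ArithmeticFunction

/-- primes up to `y` that are `1` modulo `4` -/
def P41 (y : ℕ) : Finset ℕ := (Icc 1 y).filter (fun p : ℕ => p.Prime ∧ p % 4 = 1)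

lemma cls_eq (k : ℕ) : ((k : ZMod 4) = 1) ↔ k % 4 = 1 := by
  have h : ((k : ZMod 4) = ((1 : ℕ) : ZMod 4)) ↔ k % 4 = 1 % 4 := by
    rw [ZMod.natCast_eq_natCast_iff']
  simpa using h

theorem cls_lower (y : ℕ) :
    ∑ k ∈ Finset.Icc 1 y, vonMangoldt.residueClass (1 : ZMod 4) k
      ≤ (P41 y).card * Real.log y + (Chebyshev.psi y - Chebyshev.theta y) := by
  classical
  have hpsi : Chebyshev.psi y = ∑ k ∈ Finset.Icc 1 y, vonMangoldt k := by
    unfold Chebyshev.psi
    rw [Nat.floor_natCast]
    rfl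
  have htheta : Chebyshev.theta y = ∑ k ∈ (Finset.Icc 1 y).filter Nat.Prime, Real.log k := by
    unfold Chebyshev.theta
    rw [Nat.floor_natCast]
    rfl
  rw [hpsi, htheta]
  have h1 : ∀ k ∈ Finset.Icc 1 y, vonMangoldt.residueClass (1 : ZMod 4) k
      ≤ (if k.Prime ∧ k % 4 = 1 then Real.log y else 0) +
        (vonMangoldt k - (if k.Prime then Real.log k else 0)) := by
    intro k hk
    rw [Finset.mem_Icc] at hk
    have hk1 : 1 ≤ k := hk.1
    have hlogk : Real.log k ≤ Real.log y :=
      Real.log_le_log (by exact_mod_cast hk1) (by exact_mod_cast hk.2)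
    by_cases hp : k.Prime
    · have hL : vonMangoldt k = Real.log k := vonMangoldt_apply_prime hp
      by_cases h4 : k % 4 = 1
      · have : vonMangoldt.residueClass (1 : ZMod 4) k = vonMangoldt k := by
          unfold vonMangoldt.residueClass
          rw [Set.indicator_of_mem]
          exact (cls_eq k).2 h4
        rw [this, hL]
        simp only [hp, h4, and_self, if_true]
        linarith
      · have : vonMangoldt.residueClass (1 : ZMod 4) k = 0 := by
          unfold vonMangoldt.residueClass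
          rw [Set.indicator_of_notMem]
          exact fun h => h4 ((cls_eq k).1 h)
        rw [this, hL]
        simp [hp, h4]
    · have h2 : vonMangoldt.residueClass (1 : ZMod 4) k ≤ vonMangoldt k :=
        vonMangoldt.residueClass_le _ k
      simp only [hp, false_and, if_false]
      linarith
  refine (Finset.sum_le_sum h1).trans ?_
  rw [Finset.sum_add_distrib, Finset.sum_sub_distrib, ← Finset.sum_filter, ← Finset.sum_filter]
  refine add_le_add ?_ le_rfl
  rw [Finset.sum_const, nsmul_eq_mul]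
  exact le_rfl

theorem psi_theta_nat :
    Tendsto (fun y : ℕ => (Chebyshev.psi y - Chebyshev.theta y) / (y : ℝ)) atTop (𝓝 0) := by
  have h4 : Tendsto (fun x : ℝ => (Chebyshev.psi x - Chebyshev.theta x) / x) atTop (𝓝 0) := by
    have := Pool.Agent.Helper923.PNT.psi_div_tendsto.sub
      Pool.Agent.Helper923.PNT.theta_div_tendsto
    rw [sub_self] at this
    refine this.congr fun x => ?_
    ring
  exact h4.comp tendsto_natCast_atTop_atTop

/-- there are at least `y / (4 log y)` primes `1` modulo `4` up to `y` -/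
theorem count : ∀ᶠ y : ℕ in atTop, (y : ℝ) / 4 ≤ (P41 y).card * Real.log y := by
  have h0 := (Pool.Agent.Helper923.PNT.pnt_residueClass (q := 4) (a := 1) isUnit_one).comp
    (tendsto_natCast_atTop_atTop (R := ℝ))
  have h1 := h0.sub psi_theta_nat
  rw [sub_zero] at h1
  have ht : ((Nat.totient 4 : ℕ) : ℝ)⁻¹ = 1 / 2 := by
    have : Nat.totient 4 = 2 := by decide
    rw [this]; norm_num
  rw [ht] at h1
  have h2 := h1.eventually (lt_mem_nhds (show (1 / 4 : ℝ) < 1 / 2 by norm_num))
  filter_upwards [h2, eventually_ge_atTop 1] with y hy hy1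
  have hy0 : (0 : ℝ) < y := by exact_mod_cast hy1
  simp only [Function.comp, Nat.floor_natCast] at hy
  rw [← sub_div, lt_div_iff₀ hy0] at hy
  have h3 := cls_lower y
  linarith

/-- the choice of the primes -/
theorem choose (lam : ℝ) (h0 : 0 < lam) (h : lam < Real.log 2) :
    ∃ th : ℝ, 0 < th ∧ th < 1 ∧ ∀ᶠ x : ℝ in atTop, ∃ P : Finset ℕ,
      (∀ p ∈ P, p.Prime ∧ p % 4 = 1) ∧ 2 * (∏ p ∈ P, (p : ℝ)) ≤ Real.exp (th * x) ∧
      8 * (∏ p ∈ P, ((1 + 1 / (p : ℝ)) / 2)) ≤ Real.exp (-(lam * (x / Real.log x))) := by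
  obtain ⟨mu, hmu1, hmu2⟩ := exists_between h
  have hmu0 : 0 < mu := h0.trans hmu1
  obtain ⟨de, hde⟩ : ∃ de : ℝ, de = (mu - lam) / (2 * mu) := ⟨_, rfl⟩
  have hde0 : 0 < de := by rw [hde]; exact div_pos (by linarith) (by linarith)
  have hde1 : de < 1 := by rw [hde, div_lt_one (by linarith)]; linarith
  have hdemu : (1 - de) * mu = (mu + lam) / 2 := by
    rw [hde]; field_simp; ring
  have hE : 1 < 2 * Real.exp (-mu) := by
    have h1 : Real.exp (-Real.log 2) < Real.exp (-mu) := Real.exp_lt_exp.2 (by linarith)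
    rw [Real.exp_neg, Real.exp_log (by norm_num)] at h1
    linarith
  obtain ⟨p0, hp0⟩ := exists_nat_gt (1 / (2 * Real.exp (-mu) - 1))
  have hp0' : ∀ p : ℕ, p0 < p → (1 + 1 / (p : ℝ)) / 2 ≤ Real.exp (-mu) := by
    intro p hp
    have hpp : (p0 : ℝ) < p := by exact_mod_cast hp
    have hq : 0 < 2 * Real.exp (-mu) - 1 := by linarith
    have h1 : 1 / (2 * Real.exp (-mu) - 1) < p := hp0.trans hpp
    have hpos : (0 : ℝ) < p := lt_trans (by positivity) h1
    have h2 : 1 / (p : ℝ) < 2 * Real.exp (-mu) - 1 := by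
      rw [div_lt_iff₀ hq] at h1
      rw [div_lt_iff₀ hpos]
      linarith
    linarith
  -- the eventual conditions
  have hlog : Tendsto (fun x : ℝ => x / Real.log x) atTop atTop := by
    have h1 : Tendsto (fun x : ℝ => Real.log x / x) atTop (𝓝 0) := by
      simpa using Real.isLittleO_log_id_atTop.tendsto_div_nhds_zero
    have h2 : Tendsto (fun x : ℝ => Real.log x / x) atTop (𝓝[>] 0) := by
      refine tendsto_nhdsWithin_iff.2 ⟨h1, ?_⟩
      filter_upwards [eventually_gt_atTop 1] with x hx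
      exact div_pos (Real.log_pos hx) (by linarith)
    have h3 := tendsto_inv_nhdsGT_zero.comp h2
    refine h3.congr fun x => ?_
    simp [Function.comp]
  have E1 : ∀ᶠ x : ℝ in atTop, mu + 3 ≤ (mu - lam) / 2 * (x / Real.log x) :=
    (hlog.const_mul_atTop (show 0 < (mu - lam) / 2 by linarith)).eventually_ge_atTop _
  have E2 : ∀ᶠ x : ℝ in atTop, 1 ≤ de ^ 2 / 2 * x :=
    (tendsto_id.const_mul_atTop (show 0 < de ^ 2 / 2 by positivity)).eventually_ge_atTop _
  have E3 : ∀ᶠ x : ℝ in atTop, 8 * (1 + 2 * (p0 : ℝ)) ≤ x ^ de :=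
    (tendsto_rpow_atTop hde0).eventually_ge_atTop _
  have hy : Tendsto (fun x : ℝ => ⌊x ^ (1 + de)⌋₊) atTop atTop :=
    tendsto_nat_floor_atTop.comp (tendsto_rpow_atTop (by linarith))
  have E4 := hy.eventually count
  refine ⟨1 - de ^ 2 / 2, by nlinarith, by nlinarith, ?_⟩
  filter_upwards [E1, E2, E3, E4, eventually_ge_atTop 3] with x e1 e2 e3 e4 e5
  have hx0 : 0 < x := by linarith
  have hl : 1 ≤ Real.log x := by
    rw [Real.le_log_iff_exp_le hx0]
    have := Real.exp_one_lt_d9
    linarith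
  obtain ⟨y, hyd⟩ : ∃ y : ℕ, y = ⌊x ^ (1 + de)⌋₊ := ⟨_, rfl⟩
  rw [← hyd] at e4
  have hxp : x ^ (1 + de) = x * x ^ de := by
    rw [Real.rpow_add hx0, Real.rpow_one]
  have hxd : (8 : ℝ) ≤ x ^ de := by
    have : (0 : ℝ) ≤ p0 := Nat.cast_nonneg _
    linarith
  have hy1 : (y : ℝ) ≤ x ^ (1 + de) := by rw [hyd]; exact Nat.floor_le (by positivity)
  have hy2 : x ^ (1 + de) < y + 1 := by rw [hyd]; exact Nat.lt_floor_add_one _
  have hybig : x ^ (1 + de) / 2 ≤ y := by
    have : (2 : ℝ) ≤ x ^ (1 + de) := by rw [hxp]; nlinarith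
    linarith
  have hy0 : (0 : ℝ) < y := lt_of_lt_of_le (by positivity) hybig
  have hlogy : Real.log y ≤ (1 + de) * Real.log x := by
    rw [← Real.log_rpow hx0]
    exact Real.log_le_log hy0 hy1
  have hy1' : 1 ≤ y := by exact_mod_cast (Nat.pos_of_ne_zero (by rintro h; rw [h] at hy0; simp at hy0))
  have hlogy0 : 0 ≤ Real.log y := Real.log_nonneg (by exact_mod_cast hy1')
  obtain ⟨w, hw⟩ : ∃ w : ℕ, w = ⌊(1 - de) * (x / Real.log x)⌋₊ := ⟨_, rfl⟩
  have hw1 : (w : ℝ) ≤ (1 - de) * (x / Real.log x) := by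
    rw [hw]
    exact Nat.floor_le (mul_nonneg (by linarith) (by positivity))
  have hw2 : (1 - de) * (x / Real.log x) < w + 1 := by rw [hw]; exact Nat.lt_floor_add_one _
  have hwl : (w : ℝ) * Real.log x ≤ (1 - de) * x := by
    calc (w : ℝ) * Real.log x ≤ ((1 - de) * (x / Real.log x)) * Real.log x :=
          mul_le_mul_of_nonneg_right hw1 (by linarith)
      _ = (1 - de) * x := by field_simp
  -- enough primes above `p0`
  have hcard : w ≤ ((P41 y).filter (fun p => p0 < p)).card := by
    have h1 : (P41 y).card ≤ ((P41 y).filter (fun p => p0 < p)).card + p0 := by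
      have h2 : P41 y ⊆ ((P41 y).filter (fun p => p0 < p)) ∪ Icc 1 p0 := by
        intro p hp
        rw [mem_union]
        by_cases h3 : p0 < p
        · left; rw [mem_filter]; exact ⟨hp, h3⟩
        · right
          rw [P41, mem_filter, mem_Icc] at hp
          rw [mem_Icc]
          omega
      refine (card_le_card h2).trans ((card_union_le _ _).trans ?_)
      simp
    by_contra hcon
    push Not at hcon
    have h3 : ((P41 y).card : ℝ) ≤ w + p0 := by
      have : (P41 y).card ≤ w + p0 := by omega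
      exact_mod_cast this
    have h4 : ((P41 y).card : ℝ) * Real.log y ≤ (w + p0) * ((1 + de) * Real.log x) :=
      mul_le_mul h3 hlogy hlogy0 (by positivity)
    have h5 : (w + p0) * ((1 + de) * Real.log x) ≤ (1 + 2 * (p0 : ℝ)) * x := by
      have h6 : Real.log x ≤ x := by
        have := Real.log_le_sub_one_of_pos hx0
        linarith
      have h7 : (w : ℝ) * ((1 + de) * Real.log x) ≤ x := by
        calc (w : ℝ) * ((1 + de) * Real.log x) = (1 + de) * ((w : ℝ) * Real.log x) := by ring
          _ ≤ (1 + de) * ((1 - de) * x) := mul_le_mul_of_nonneg_left hwl (by linarith)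
          _ = x - de ^ 2 * x := by ring
          _ ≤ x := by nlinarith [sq_nonneg de]
      have h8 : (p0 : ℝ) * ((1 + de) * Real.log x) ≤ 2 * p0 * x := by
        have h9 : (1 + de) * Real.log x ≤ 2 * x := by nlinarith
        calc (p0 : ℝ) * ((1 + de) * Real.log x) ≤ p0 * (2 * x) :=
              mul_le_mul_of_nonneg_left h9 (Nat.cast_nonneg _)
          _ = 2 * p0 * x := by ring
      nlinarith
    have h6 : x ^ (1 + de) / 8 < (1 + 2 * (p0 : ℝ)) * x + 1 := by
      have : x ^ (1 + de) / 8 ≤ y / 4 := by linarith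
      linarith
    have h7 : (1 + 2 * (p0 : ℝ)) * x ≤ x ^ (1 + de) / 8 := by
      rw [hxp]
      nlinarith
    -- strictness
    have h8 : (P41 y).card + 1 ≤ w + p0 := by omega
    have h9 : ((P41 y).card : ℝ) + 1 ≤ w + p0 := by exact_mod_cast h8
    have h10 : (((P41 y).card : ℝ) + 1) * Real.log y ≤ (w + p0) * ((1 + de) * Real.log x) :=
      mul_le_mul h9 hlogy hlogy0 (by positivity)
    have h11 : 0 < Real.log y := by
      apply Real.log_pos
      have : (2 : ℝ) < x ^ (1 + de) / 2 := by rw [hxp]; nlinarith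
      linarith
    nlinarith
  obtain ⟨P, hP1, hP2⟩ := Finset.exists_subset_card_eq hcard
  have hPm : ∀ p ∈ P, (p.Prime ∧ p % 4 = 1) ∧ p ≤ y ∧ p0 < p := by
    intro p hp
    have h1 := hP1 hp
    rw [mem_filter, P41, mem_filter, mem_Icc] at h1
    exact ⟨h1.1.2, h1.1.1.2, h1.2⟩
  refine ⟨P, fun p hp => (hPm p hp).1, ?_, ?_⟩
  · have h1 : ∏ p ∈ P, (p : ℝ) ≤ (y : ℝ) ^ w := by
      rw [← hP2, ← Finset.prod_const]
      apply Finset.prod_le_prod
      · intro p _; positivity
      · intro p hp
        exact_mod_cast (hPm p hp).2.1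
    have h2 : (y : ℝ) ^ w = Real.exp (w * Real.log y) := by
      rw [Real.exp_nat_mul, Real.exp_log hy0]
    have h3 : (w : ℝ) * Real.log y ≤ (1 - de ^ 2) * x := by
      calc (w : ℝ) * Real.log y ≤ w * ((1 + de) * Real.log x) :=
            mul_le_mul_of_nonneg_left hlogy (Nat.cast_nonneg _)
        _ = (1 + de) * ((w : ℝ) * Real.log x) := by ring
        _ ≤ (1 + de) * ((1 - de) * x) := mul_le_mul_of_nonneg_left hwl (by linarith)
        _ = (1 - de ^ 2) * x := by ring
    have h4 : (2 : ℝ) ≤ Real.exp 1 := by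
      have := Real.add_one_le_exp (1 : ℝ)
      linarith
    calc 2 * ∏ p ∈ P, (p : ℝ) ≤ Real.exp 1 * Real.exp ((1 - de ^ 2) * x) := by
          refine mul_le_mul h4 ?_ (Finset.prod_nonneg fun p _ => by positivity) (by positivity)
          rw [h2] at h1
          exact h1.trans (Real.exp_le_exp.2 h3)
      _ = Real.exp (1 + (1 - de ^ 2) * x) := by rw [Real.exp_add]
      _ ≤ _ := by
        apply Real.exp_le_exp.2
        linarith
  · have h1 : ∏ p ∈ P, ((1 + 1 / (p : ℝ)) / 2) ≤ (Real.exp (-mu)) ^ w := by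
      rw [← hP2, ← Finset.prod_const]
      apply Finset.prod_le_prod
      · intro p _; positivity
      · intro p hp
        exact hp0' p (hPm p hp).2.2
    have h2 : (Real.exp (-mu)) ^ w = Real.exp (w * (-mu)) := by rw [Real.exp_nat_mul]
    have h8 : (8 : ℝ) ≤ Real.exp 3 := by
      have h4 : (2 : ℝ) ≤ Real.exp 1 := by
        have := Real.add_one_le_exp (1 : ℝ)
        linarith
      have h5 : Real.exp 3 = Real.exp 1 ^ 3 := by rw [← Real.exp_nat_mul]; norm_num
      rw [h5]
      calc (8 : ℝ) = 2 ^ 3 := by norm_num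
        _ ≤ _ := pow_le_pow_left₀ (by norm_num) h4 3
    rw [h2] at h1
    calc 8 * ∏ p ∈ P, ((1 + 1 / (p : ℝ)) / 2) ≤ Real.exp 3 * Real.exp (w * (-mu)) :=
          mul_le_mul h8 h1 (Finset.prod_nonneg fun p _ => by positivity) (by positivity)
      _ = Real.exp (3 + w * (-mu)) := by rw [Real.exp_add]
      _ ≤ _ := by
        apply Real.exp_le_exp.2
        have h3 : ((1 - de) * (x / Real.log x) - 1) * mu ≤ w * mu :=
          mul_le_mul_of_nonneg_right (by linarith) hmu0.le
        have h4 : ((1 - de) * (x / Real.log x) - 1) * mu =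
            (mu + lam) / 2 * (x / Real.log x) - mu := by
          rw [← hdemu]; ring
        rw [h4] at h3
        have h5 : (mu + lam) / 2 * (x / Real.log x) =
            lam * (x / Real.log x) + (mu - lam) / 2 * (x / Real.log x) := by ring
        linarith

end Pool.Agent.Y821.DD
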