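import Mathlib

/-!
# Solutions of `x y = z w` in a box
-/

set_option autoImplicit false

namespace Pool.Agent.Y821.DD

open Finset

/-- positive solutions of `x y = z w` with entries at most `M` -/
def Qp (M : ℕ) : Finset (ℕ × ℕ × ℕ × ℕ) :=
  (Icc 1 M ×ˢ Icc 1 M ×ˢ Icc 1 M ×ˢ Icc 1 M).filter (fun q => q.1 * q.2.1 = q.2.2.1 * q.2.2.2)

/-- parameters -/
def Tp (M : ℕ) : Finset (Σ _ : ℕ, ℕ × ℕ × ℕ) :=
  (Icc 1 M).sigma (fun b => Icc 1 b ×ˢ Icc 1 (M / b) ×ˢ Icc 1 (M / b))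

lemma Tp_card (M : ℕ) : ((Tp M).card : ℝ) ≤ (M : ℝ) ^ 2 * (1 + Real.log M) := by
  have h1 : (Tp M).card = ∑ b ∈ Icc 1 M, b * ((M / b) * (M / b)) := by
    unfold Tp
    rw [Finset.card_sigma]
    refine Finset.sum_congr rfl fun b _ => ?_
    simp [Finset.card_product]
  rw [h1]
  push_cast
  have h2 : ∀ b ∈ Icc 1 M, (b : ℝ) * (((M / b : ℕ) : ℝ) * ((M / b : ℕ) : ℝ)) ≤
      (M : ℝ) ^ 2 * ((b : ℝ)⁻¹) := by
    intro b hb
    rw [mem_Icc] at hb
    have hb0 : (0 : ℝ) < b := by exact_mod_cast hb.1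
    have h3 : ((M / b : ℕ) : ℝ) ≤ (M : ℝ) / b := Nat.cast_div_le
    calc (b : ℝ) * (((M / b : ℕ) : ℝ) * ((M / b : ℕ) : ℝ)) ≤ b * (((M : ℝ) / b) * ((M : ℝ) / b)) := by
          apply mul_le_mul_of_nonneg_left _ hb0.le
          exact mul_le_mul h3 h3 (by positivity) (by positivity)
      _ = (M : ℝ) ^ 2 * ((b : ℝ)⁻¹) := by field_simp
  refine (Finset.sum_le_sum h2).trans ?_
  rw [← Finset.mul_sum]
  apply mul_le_mul_of_nonneg_left _ (by positivity)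
  have h4 := harmonic_le_one_add_log M
  rw [harmonic_eq_sum_Icc] at h4
  push_cast at h4
  exact h4

lemma Qp_sub (M : ℕ) : Qp M ⊆
    (Tp M).image (fun t => (t.2.2.1 * t.2.1, t.1 * t.2.2.2, t.2.2.1 * t.1, t.2.1 * t.2.2.2)) ∪
    (Tp M).image (fun t => (t.2.2.1 * t.1, t.2.1 * t.2.2.2, t.2.2.1 * t.2.1, t.1 * t.2.2.2)) := by
  -- the case `x ≤ z`
  have key : ∀ x y z w : ℕ, 1 ≤ x → 1 ≤ y → 1 ≤ z → 1 ≤ w → y ≤ M → z ≤ M → x * y = z * w →
      x ≤ z → ∃ t ∈ Tp M, x = t.2.2.1 * t.2.1 ∧ y = t.1 * t.2.2.2 ∧ z = t.2.2.1 * t.1 ∧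
        w = t.2.1 * t.2.2.2 := by
    intro x y z w hx hy hz hw hyM hzM he hxz
    obtain ⟨g, hg⟩ : ∃ g, g = Nat.gcd x z := ⟨_, rfl⟩
    have hg0 : 0 < g := by rw [hg]; exact Nat.gcd_pos_of_pos_left _ hx
    obtain ⟨a, b, hab, h1, h2⟩ := Nat.exists_coprime x z
    rw [← hg] at h1 h2
    have hb0 : 0 < b := Nat.pos_of_ne_zero (by rintro rfl; simp at h2; omega)
    have ha0 : 0 < a := Nat.pos_of_ne_zero (by rintro rfl; simp at h1; omega)
    have h3 : a * y = b * w := by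
      have : g * (a * y) = g * (b * w) := by
        calc g * (a * y) = (a * g) * y := by ring
          _ = x * y := by rw [← h1]
          _ = z * w := he
          _ = (b * g) * w := by rw [← h2]
          _ = g * (b * w) := by ring
      exact Nat.eq_of_mul_eq_mul_left hg0 this
    have h4 : b ∣ y := by
      have : b ∣ a * y := ⟨w, h3⟩
      exact hab.symm.dvd_of_dvd_mul_left this
    obtain ⟨h, hh⟩ := h4
    have h5 : w = a * h := by
      have : b * w = b * (a * h) := by rw [← h3, hh]; ring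
      exact Nat.eq_of_mul_eq_mul_left hb0 this
    have hh0 : 0 < h := Nat.pos_of_ne_zero (by rintro rfl; simp at hh; omega)
    refine ⟨⟨b, a, g, h⟩, ?_, ?_, hh, ?_, h5⟩
    · unfold Tp
      rw [mem_sigma, mem_product, mem_product, mem_Icc, mem_Icc, mem_Icc, mem_Icc]
      have hbM : b ≤ M := by
        have : b * 1 ≤ b * g := Nat.mul_le_mul_left b hg0
        omega
      have hle : a ≤ b := by
        have : a * g ≤ b * g := by rw [← h1, ← h2]; exact hxz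
        exact Nat.le_of_mul_le_mul_right this hg0
      refine ⟨⟨hb0, hbM⟩, ⟨ha0, hle⟩, ⟨hg0, ?_⟩, ⟨hh0, ?_⟩⟩
      · rw [Nat.le_div_iff_mul_le hb0, mul_comm, ← h2]
        exact hzM
      · rw [Nat.le_div_iff_mul_le hb0, mul_comm, ← hh]
        exact hyM
    · rw [h1]; ring
    · rw [h2]; ring
  rintro ⟨x, y, z, w⟩ hq
  unfold Qp at hq
  rw [mem_filter, mem_product, mem_product, mem_product, mem_Icc, mem_Icc, mem_Icc, mem_Icc] at hq
  obtain ⟨⟨⟨hx, hxM⟩, ⟨hy, hyM⟩, ⟨hz, hzM⟩, ⟨hw, hwM⟩⟩, he⟩ := hq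
  simp only at hx hxM hy hyM hz hzM hw hwM he
  rw [mem_union, mem_image, mem_image]
  rcases le_total x z with hxz | hxz
  · left
    obtain ⟨t, ht, e1, e2, e3, e4⟩ := key x y z w hx hy hz hw hyM hzM he hxz
    exact ⟨t, ht, by rw [← e1, ← e2, ← e3, ← e4]⟩
  · right
    obtain ⟨t, ht, e1, e2, e3, e4⟩ := key z w x y hz hw hx hy hwM hxM he.symm hxz
    exact ⟨t, ht, by rw [← e1, ← e2, ← e3, ← e4]⟩

lemma Qp_card (M : ℕ) : ((Qp M).card : ℝ) ≤ 2 * ((M : ℝ) ^ 2 * (1 + Real.log M)) := by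
  have h1 : (Qp M).card ≤ (Tp M).card + (Tp M).card :=
    (card_le_card (Qp_sub M)).trans ((card_union_le _ _).trans
      (Nat.add_le_add card_image_le card_image_le))
  have h2 : ((Qp M).card : ℝ) ≤ (Tp M).card + (Tp M).card := by exact_mod_cast h1
  have := Tp_card M
  linarith

/-- the box -/
noncomputable def Bx (M : ℕ) : Finset ℤ := Icc (-(M : ℤ)) M

/-- integer solutions -/
noncomputable def Qi (M : ℕ) : Finset (ℤ × ℤ × ℤ × ℤ) :=
  (Bx M ×ˢ Bx M ×ˢ Bx M ×ˢ Bx M).filter (fun q => q.1 * q.2.1 = q.2.2.1 * q.2.2.2)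

lemma Bx_card (M : ℕ) : (Bx M).card = 2 * M + 1 := by
  unfold Bx
  rw [Int.card_Icc]
  omega

lemma Qi_nonzero (M : ℕ) : ((Qi M).filter (fun q => q.1 * q.2.1 ≠ 0)).card ≤ 16 * (Qp M).card := by
  classical
  refine Finset.card_le_mul_card_image_of_maps_to
    (f := fun q => (q.1.natAbs, q.2.1.natAbs, q.2.2.1.natAbs, q.2.2.2.natAbs)) ?_ 16 ?_
  · rintro ⟨x, y, z, w⟩ hq
    unfold Qi Bx at hq
    rw [mem_filter, mem_filter, mem_product, mem_product, mem_product, mem_Icc, mem_Icc, mem_Icc,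
      mem_Icc] at hq
    obtain ⟨⟨⟨hx, hy, hz, hw⟩, he⟩, h0⟩ := hq
    simp only at hx hy hz hw he h0
    have h0' : z * w ≠ 0 := by rw [← he]; exact h0
    have a1 := left_ne_zero_of_mul h0
    have a2 := right_ne_zero_of_mul h0
    have a3 := left_ne_zero_of_mul h0'
    have a4 := right_ne_zero_of_mul h0'
    unfold Qp
    rw [mem_filter, mem_product, mem_product, mem_product, mem_Icc, mem_Icc, mem_Icc, mem_Icc]
    refine ⟨⟨⟨by simp only; omega, by simp only; omega⟩, ⟨by simp only; omega, by simp only; omega⟩,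
      ⟨by simp only; omega, by simp only; omega⟩, ⟨by simp only; omega, by simp only; omega⟩⟩, ?_⟩
    simp only
    rw [← Int.natAbs_mul, ← Int.natAbs_mul, he]
  · rintro ⟨x, y, z, w⟩ _
    have hsub : ((Qi M).filter (fun q => q.1 * q.2.1 ≠ 0)).filter
        (fun q => (q.1.natAbs, q.2.1.natAbs, q.2.2.1.natAbs, q.2.2.2.natAbs) = (x, y, z, w)) ⊆
        ({(x : ℤ), -(x : ℤ)} : Finset ℤ) ×ˢ ({(y : ℤ), -(y : ℤ)} : Finset ℤ) ×ˢ
        ({(z : ℤ), -(z : ℤ)} : Finset ℤ) ×ˢ ({(w : ℤ), -(w : ℤ)} : Finset ℤ) := by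
      rintro ⟨a, b, c, d⟩ hq
      rw [mem_filter] at hq
      have hq2 := hq.2
      simp only [Prod.mk.injEq] at hq2
      obtain ⟨e1, e2, e3, e4⟩ := hq2
      rw [mem_product, mem_product, mem_product]
      simp only [mem_insert, mem_singleton]
      refine ⟨by omega, by omega, by omega, by omega⟩
    refine (card_le_card hsub).trans ?_
    rw [card_product, card_product, card_product]
    have h2 : ∀ t : ℕ, ({(t : ℤ), -(t : ℤ)} : Finset ℤ).card ≤ 2 := fun t => card_le_two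
    calc _ ≤ 2 * (2 * (2 * 2)) :=
          Nat.mul_le_mul (h2 x) (Nat.mul_le_mul (h2 y) (Nat.mul_le_mul (h2 z) (h2 w)))
      _ = 16 := by norm_num

lemma Qi_zero (M : ℕ) : ((Qi M).filter (fun q => ¬ q.1 * q.2.1 ≠ 0)).card ≤
    4 * ((2 * M + 1) * (2 * M + 1)) := by
  classical
  have hsub : (Qi M).filter (fun q => ¬ q.1 * q.2.1 ≠ 0) ⊆
      (((Bx M ×ˢ Bx M).image (fun p => ((0 : ℤ), p.1, (0 : ℤ), p.2)) ∪
      (Bx M ×ˢ Bx M).image (fun p => ((0 : ℤ), p.1, p.2, (0 : ℤ)))) ∪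
      (Bx M ×ˢ Bx M).image (fun p => (p.1, (0 : ℤ), (0 : ℤ), p.2))) ∪
      (Bx M ×ˢ Bx M).image (fun p => (p.1, (0 : ℤ), p.2, (0 : ℤ))) := by
    rintro ⟨x, y, z, w⟩ hq
    unfold Qi at hq
    rw [mem_filter, mem_filter, mem_product, mem_product, mem_product] at hq
    obtain ⟨⟨⟨hx, hy, hz, hw⟩, he⟩, h0⟩ := hq
    simp only at hx hy hz hw he h0
    push Not at h0
    have h0' : z * w = 0 := by rw [← he]; exact h0
    simp only [mem_union, mem_image, mem_product, Prod.mk.injEq, Prod.exists]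
    rcases mul_eq_zero.1 h0 with h1 | h1 <;> rcases mul_eq_zero.1 h0' with h2 | h2
    · left; left; left
      exact ⟨y, w, ⟨hy, hw⟩, h1.symm, rfl, h2.symm, rfl⟩
    · left; left; right
      exact ⟨y, z, ⟨hy, hz⟩, h1.symm, rfl, rfl, h2.symm⟩
    · left; right
      exact ⟨x, w, ⟨hx, hw⟩, rfl, h1.symm, h2.symm, rfl⟩
    · right
      exact ⟨x, z, ⟨hx, hz⟩, rfl, h1.symm, rfl, h2.symm⟩
  refine (card_le_card hsub).trans ?_
  have hc : (Bx M ×ˢ Bx M).card = (2 * M + 1) * (2 * M + 1) := by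
    rw [card_product, Bx_card]
  refine (card_union_le _ _).trans ?_
  have h1 := card_image_le (s := Bx M ×ˢ Bx M) (f := fun p => ((0 : ℤ), p.1, (0 : ℤ), p.2))
  have h2 := card_image_le (s := Bx M ×ˢ Bx M) (f := fun p => ((0 : ℤ), p.1, p.2, (0 : ℤ)))
  have h3 := card_image_le (s := Bx M ×ˢ Bx M) (f := fun p => (p.1, (0 : ℤ), (0 : ℤ), p.2))
  have h4 := card_image_le (s := Bx M ×ˢ Bx M) (f := fun p => (p.1, (0 : ℤ), p.2, (0 : ℤ)))
  rw [hc] at h1 h2 h3 h4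
  have u1 := card_union_le ((Bx M ×ˢ Bx M).image (fun p => ((0 : ℤ), p.1, (0 : ℤ), p.2)) ∪
      (Bx M ×ˢ Bx M).image (fun p => ((0 : ℤ), p.1, p.2, (0 : ℤ))))
      ((Bx M ×ˢ Bx M).image (fun p => (p.1, (0 : ℤ), (0 : ℤ), p.2)))
  have u2 := card_union_le ((Bx M ×ˢ Bx M).image (fun p => ((0 : ℤ), p.1, (0 : ℤ), p.2)))
      ((Bx M ×ˢ Bx M).image (fun p => ((0 : ℤ), p.1, p.2, (0 : ℤ))))
  omega

/-- the number of integer solutions in the box -/
theorem Qi_card (M : ℕ) (hM : 1 ≤ M) : ((Qi M).card : ℝ) ≤ 68 * ((M : ℝ) ^ 2 * (1 + Real.log M)) := by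
  have h1 : (Qi M).card ≤ 16 * (Qp M).card + 4 * ((2 * M + 1) * (2 * M + 1)) := by
    rw [← Finset.card_filter_add_card_filter_not (s := Qi M) (fun q => q.1 * q.2.1 ≠ 0)]
    exact Nat.add_le_add (Qi_nonzero M) (Qi_zero M)
  have h2 : ((Qi M).card : ℝ) ≤ 16 * (Qp M).card + 4 * ((2 * M + 1) * (2 * M + 1)) := by
    exact_mod_cast h1
  have h3 := Qp_card M
  have hM1 : (1 : ℝ) ≤ M := by exact_mod_cast hM
  have hl : 0 ≤ Real.log M := Real.log_nonneg hM1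
  have h4 : (4 : ℝ) * ((2 * M + 1) * (2 * M + 1)) ≤ 36 * (M : ℝ) ^ 2 := by nlinarith
  have h5 : (0 : ℝ) ≤ (M : ℝ) ^ 2 * Real.log M := by positivity
  nlinarith

end Pool.Agent.Y821.DD
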