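import Pool.Agent.Y821.DD.Grid

/-!
# Sidon sets of squares
-/

set_option autoImplicit false

namespace Pool.Agent.Y821.DD

open Finset Filter Topology Pool.Agent.H264R2.Pigeon

/-- squares modulo an odd prime occupy at most `(p+1)/2` classes -/
lemma sq_classes2 {p : ℕ} (hp : p.Prime) (h4 : p % 4 = 1) :
    ∃ T : Finset (ZMod p), (∀ x : ZMod p, x ^ 2 ∈ T) ∧ 2 * T.card ≤ p + 1 := by
  have : Fact p.Prime := ⟨hp⟩
  refine ⟨(range (p / 2 + 1)).image (fun i : ℕ => ((i : ZMod p)) ^ 2), ?_, ?_⟩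
  · intro x
    rw [mem_image]
    refine ⟨x.valMinAbs.natAbs, ?_, ?_⟩
    · rw [mem_range]
      have := ZMod.natAbs_valMinAbs_le x
      omega
    · have h1 : ((x.valMinAbs.natAbs : ZMod p)) ^ 2 = ((x.valMinAbs : ℤ) : ZMod p) ^ 2 := by
        have h2 : ((x.valMinAbs.natAbs : ℤ)) ^ 2 = x.valMinAbs ^ 2 := Int.natAbs_sq _
        have h3 : (((x.valMinAbs.natAbs : ℤ) ^ 2 : ℤ) : ZMod p) = ((x.valMinAbs ^ 2 : ℤ) : ZMod p) := by
          rw [h2]
        rw [Int.cast_pow, Int.cast_pow, Int.cast_natCast] at h3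
        exact h3
      rw [h1, ZMod.coe_valMinAbs]
  · have h1 : ((range (p / 2 + 1)).image (fun i : ℕ => ((i : ZMod p)) ^ 2)).card ≤ p / 2 + 1 := by
      refine card_image_le.trans ?_
      rw [card_range]
    have h5 : 5 ≤ p := by
      have := hp.two_le
      by_contra h
      interval_cases p <;> simp_all
    omega

/-- counting inequality for Sidon sets of squares, given by the set of roots -/
theorem core_sq2 (P : Finset ℕ) (hP : ∀ p ∈ P, p.Prime ∧ p % 4 = 1) (N : ℕ) (A : Finset ℕ)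
    (hA : ∀ a ∈ A, a ≤ N)
    (hS : ∀ a ∈ A, ∀ b ∈ A, ∀ c ∈ A, ∀ e ∈ A, a ≠ b → (a : ℤ) ^ 2 - (b : ℤ) ^ 2 = (c : ℤ) ^ 2 - (e : ℤ) ^ 2 →
      a = c ∧ b = e) :
    ((A.card : ℝ)) ^ 2 ≤ (∏ p ∈ P, (p : ℝ)) * (A.card + 1) + 2 * (N : ℝ) ^ 2 * ∏ p ∈ P, ((1 + 1 / (p : ℝ)) / 2) := by
  classical
  have hex : ∀ p ∈ P, ∃ T : Finset (ZMod p), (∀ x : ZMod p, x ^ 2 ∈ T) ∧ 2 * T.card ≤ p + 1 :=
    fun p hp => sq_classes2 (hP p hp).1 (hP p hp).2
  choose! T hT1 hT2 using hex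
  set d := ∏ p ∈ P, p with hd
  have hd0 : 0 < d := Finset.prod_pos fun p hp => (hP p hp).1.pos
  have hdR : (∏ p ∈ P, (p : ℝ)) = (d : ℝ) := by rw [hd]; push_cast; rfl
  have hd0R : (0 : ℝ) < d := by exact_mod_cast hd0
  set TT : Finset (∀ p : P, ZMod p) := Fintype.piFinset (fun p : P => T p) with hTT
  set G : ℕ → (∀ p : P, ZMod p) := fun a p => (a : ZMod p) ^ 2 with hG
  have h1 := cs A TT G (fun a _ => by
    rw [hTT, Fintype.mem_piFinset]
    intro p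
    exact hT1 p.1 p.2 _)
  obtain ⟨Q, hQ⟩ : ∃ Q : ℝ, Q = ∏ p ∈ P, ((1 + 1 / (p : ℝ)) / 2) := ⟨_, rfl⟩
  have hQ0 : 0 ≤ Q := by rw [hQ]; exact Finset.prod_nonneg fun p _ => by positivity
  have hQ1 : Q ≤ 1 := by
    rw [hQ]
    refine Finset.prod_le_one (fun p _ => by positivity) fun p hp => ?_
    have h2 : (1 : ℝ) ≤ p := by exact_mod_cast (hP p hp).1.one_lt.le
    have h3 : 1 / (p : ℝ) ≤ 1 := by
      rw [div_le_one (by linarith)]
      exact h2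
    linarith
  have hTc : (TT.card : ℝ) ≤ Q * d := by
    rw [hTT, Fintype.card_piFinset]
    push_cast
    rw [← hdR, hQ, ← Finset.prod_mul_distrib,
      ← Finset.prod_coe_sort P (fun p => ((1 + 1 / (p : ℝ)) / 2) * (p : ℝ))]
    apply Finset.prod_le_prod
    · intro p _; positivity
    · intro p _
      have := hT2 p.1 p.2
      have h3 : (2 : ℝ) * ((T p).card : ℝ) ≤ ((p : ℕ) : ℝ) + 1 := by exact_mod_cast this
      have h4 : (0 : ℝ) < ((p : ℕ) : ℝ) := by exact_mod_cast (hP p.1 p.2).1.pos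
      have h5 : ((1 + 1 / ((p : ℕ) : ℝ)) / 2) * ((p : ℕ) : ℝ) = (((p : ℕ) : ℝ) + 1) / 2 := by
        field_simp
      rw [h5]
      linarith
  have hdvd : ∀ x ∈ (A ×ˢ A).filter (fun x => G x.1 = G x.2), (d : ℤ) ∣ ((x.1 : ℤ) ^ 2 - (x.2 : ℤ) ^ 2) := by
    intro x hx
    rw [mem_filter] at hx
    rw [Int.natCast_dvd]
    apply Finset.prod_primes_dvd _ (fun p hp => (hP p hp).1.prime)
    intro p hp
    rw [← Int.natCast_dvd, ← ZMod.intCast_zmod_eq_zero_iff_dvd]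
    have h3 := congrFun hx.2 ⟨p, hp⟩
    simp only [hG] at h3
    push_cast
    rw [h3, sub_self]
  -- pairs
  have h2 : ((A ×ˢ A).filter (fun x => G x.1 = G x.2)).card ≤ A.card + (2 * (N ^ 2 / d) + 1) := by
    have hsub : (A ×ˢ A).filter (fun x => G x.1 = G x.2) ⊆ A.diag ∪
        ((A ×ˢ A).filter (fun x => G x.1 = G x.2)).filter (fun x => x.1 ≠ x.2) := by
      intro x hx
      rw [mem_union]
      by_cases h : x.1 = x.2
      · left
        rw [mem_diag]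
        rw [mem_filter, mem_product] at hx
        exact ⟨hx.1.1, h⟩
      · right
        rw [mem_filter]
        exact ⟨hx, h⟩
    refine (card_le_card hsub).trans ((card_union_le _ _).trans ?_)
    rw [Finset.diag_card]
    apply Nat.add_le_add_left
    have hinj : Set.InjOn (fun x : ℕ × ℕ => ((x.1 : ℤ) ^ 2 - (x.2 : ℤ) ^ 2) / (d : ℤ))
        (((A ×ˢ A).filter (fun x => G x.1 = G x.2)).filter (fun x => x.1 ≠ x.2) : Finset (ℕ × ℕ)) := by
      intro x hx y hy hxy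
      simp only [coe_filter, Set.mem_ofPred_eq] at hx hy
      have hx' := hdvd x hx.1
      have hy' := hdvd y hy.1
      have e : (x.1 : ℤ) ^ 2 - (x.2 : ℤ) ^ 2 = (y.1 : ℤ) ^ 2 - (y.2 : ℤ) ^ 2 := by
        simp only at hxy
        rw [← Int.ediv_mul_cancel hx', ← Int.ediv_mul_cancel hy', hxy]
      rw [mem_filter, mem_product] at hx hy
      have := hS _ hx.1.1.1 _ hx.1.1.2 _ hy.1.1.1 _ hy.1.1.2 hx.2 e
      exact Prod.ext this.1 this.2
    have hmap : ∀ x ∈ ((A ×ˢ A).filter (fun x => G x.1 = G x.2)).filter (fun x => x.1 ≠ x.2),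
        ((x.1 : ℤ) ^ 2 - (x.2 : ℤ) ^ 2) / (d : ℤ) ∈ Icc (-((N ^ 2 / d : ℕ) : ℤ)) ((N ^ 2 / d : ℕ) : ℤ) := by
      intro x hx
      rw [mem_filter] at hx
      have hx' := hdvd x hx.1
      obtain ⟨q, hq⟩ := hx'
      have hdz : (d : ℤ) ≠ 0 := by exact_mod_cast hd0.ne'
      rw [hq, Int.mul_ediv_cancel_left _ hdz]
      have hx2 := hx.1
      rw [mem_filter, mem_product] at hx2
      have a1 := hA _ hx2.1.1
      have a2 := hA _ hx2.1.2
      have b1 : (x.1 : ℤ) ^ 2 ≤ (N : ℤ) ^ 2 := by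
        have : x.1 ^ 2 ≤ N ^ 2 := Nat.pow_le_pow_left a1 2
        exact_mod_cast this
      have b2 : (x.2 : ℤ) ^ 2 ≤ (N : ℤ) ^ 2 := by
        have : x.2 ^ 2 ≤ N ^ 2 := Nat.pow_le_pow_left a2 2
        exact_mod_cast this
      have habs : |(d : ℤ) * q| ≤ (N : ℤ) ^ 2 := by
        rw [← hq, abs_le]
        constructor <;> nlinarith [sq_nonneg (x.1 : ℤ), sq_nonneg (x.2 : ℤ)]
      have h3 : d * q.natAbs ≤ N ^ 2 := by
        have : ((d * q.natAbs : ℕ) : ℤ) ≤ ((N ^ 2 : ℕ) : ℤ) := by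
          push_cast
          rw [abs_mul] at habs
          simpa using habs
        exact_mod_cast this
      have h4 : q.natAbs ≤ N ^ 2 / d := by
        rw [Nat.le_div_iff_mul_le hd0, mul_comm]
        exact h3
      rw [mem_Icc]
      omega
    have := Finset.card_le_card_of_injOn _ hmap hinj
    rw [Int.card_Icc] at this
    refine this.trans ?_
    omega
  have h3 : ((A.card : ℝ)) ^ 2 ≤ TT.card * (A.card + (2 * (N ^ 2 / d : ℕ) + 1)) := by
    have : A.card ^ 2 ≤ TT.card * (A.card + (2 * (N ^ 2 / d) + 1)) :=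
      h1.trans (Nat.mul_le_mul_left _ h2)
    exact_mod_cast this
  have h4 : ((N ^ 2 / d : ℕ) : ℝ) ≤ (N : ℝ) ^ 2 / d := by
    have : ((N ^ 2 / d : ℕ) : ℝ) ≤ ((N ^ 2 : ℕ) : ℝ) / d := Nat.cast_div_le
    push_cast at this
    exact this
  have hc0 : (0 : ℝ) ≤ A.card := by positivity
  rw [← hQ]
  calc ((A.card : ℝ)) ^ 2 ≤ TT.card * (A.card + (2 * (N ^ 2 / d : ℕ) + 1)) := h3
    _ ≤ (Q * d) * (A.card + (2 * ((N : ℝ) ^ 2 / d) + 1)) := by
        apply mul_le_mul hTc _ (by positivity) (by positivity)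
        linarith
    _ = Q * (d * (A.card + 1)) + 2 * (N : ℝ) ^ 2 * Q := by
        field_simp
        ring
    _ ≤ _ := by
        rw [hdR]
        have h6 : (0 : ℝ) ≤ d * (A.card + 1) := by positivity
        nlinarith


/-- positive constants below `(log 2) / 2` -/
theorem squares_pos (c : ℝ) (h0 : 0 < c) (h : c < Real.log 2 / 2) :
    ∃ n₀ : ℕ, ∀ n : ℕ, n₀ ≤ n → ∀ A : Finset ℕ, (∀ a ∈ A, a ≤ n) →
    (∀ a ∈ A, ∀ b ∈ A, ∀ c ∈ A, ∀ e ∈ A, a ≠ b → (a : ℤ) ^ 2 - (b : ℤ) ^ 2 = (c : ℤ) ^ 2 - (e : ℤ) ^ 2 →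
      a = c ∧ b = e) →
    (A.card : ℝ) ≤ (n : ℝ) ^ (1 - c / Real.log (Real.log n)) := by
  obtain ⟨n₀, hn₀⟩ := choose_n c h0 h
  refine ⟨n₀, fun n hn A hA hS => ?_⟩
  obtain ⟨P, th, hP, hd, hsav, hth, hn4, h2n⟩ := hn₀ n hn
  have hcore := core_sq2 P hP n A hA hS
  obtain ⟨k, hk⟩ : ∃ k : ℝ, k = (A.card : ℝ) := ⟨_, rfl⟩
  rw [← hk] at hcore ⊢
  have hk0 : 0 ≤ k := by rw [hk]; positivity
  obtain ⟨B, hB⟩ : ∃ B : ℝ, B = (n : ℝ) ^ (1 - c / Real.log (Real.log n)) := ⟨_, rfl⟩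
  rw [← hB] at hsav hth h2n ⊢
  by_cases hks : k < (n : ℝ) ^ th
  · exact hks.le.trans hth
  · by_cases hk2 : k < 2
    · linarith
    push Not at hks hk2
    obtain ⟨Q, hQ⟩ : ∃ Q : ℝ, Q = ∏ p ∈ P, ((1 + 1 / (p : ℝ)) / 2) := ⟨_, rfl⟩
    obtain ⟨d, hdd⟩ : ∃ d : ℝ, d = ∏ p ∈ P, (p : ℝ) := ⟨_, rfl⟩
    rw [← hQ] at hsav hcore
    rw [← hdd] at hd hcore
    have h3 : d * (k + 1) ≤ 3 * k ^ 2 / 4 := by
      have : d ≤ k / 2 := by linarith
      have h5 : k + 1 ≤ 3 * k / 2 := by linarith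
      calc d * (k + 1) ≤ (k / 2) * (3 * k / 2) := by
            apply mul_le_mul this h5 (by linarith) (by linarith)
        _ = _ := by ring
    have h5 : k ^ 2 ≤ B ^ 2 := by
      refine le_trans ?_ hsav
      linarith
    exact (abs_le_of_sq_le_sq' h5 (by linarith)).2

/-- all constants below `(log 2) / 2` -/
theorem squares (c : ℝ) (h : c < Real.log 2 / 2) :
    ∃ n₀ : ℕ, ∀ n : ℕ, n₀ ≤ n → ∀ A : Finset ℕ, (∀ a ∈ A, a ≤ n) →
    (∀ a ∈ A, ∀ b ∈ A, ∀ c ∈ A, ∀ e ∈ A, a ≠ b → (a : ℤ) ^ 2 - (b : ℤ) ^ 2 = (c : ℤ) ^ 2 - (e : ℤ) ^ 2 →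
      a = c ∧ b = e) →
    (A.card : ℝ) ≤ (n : ℝ) ^ (1 - c / Real.log (Real.log n)) := by
  obtain ⟨c', hc', h'⟩ : ∃ c' : ℝ, max c 0 < c' ∧ c' < Real.log 2 / 2 :=
    exists_between (max_lt h (by have := Real.log_pos (show (1:ℝ) < 2 by norm_num); linarith))
  obtain ⟨n₀, hn₀⟩ := squares_pos c' ((le_max_right _ _).trans_lt hc') h'
  refine ⟨max n₀ 16, fun n hn A hA hS => ?_⟩
  refine (hn₀ n ((le_max_left _ _).trans hn) A hA hS).trans ?_
  have hn16 : (16 : ℝ) ≤ n := by exact_mod_cast (le_max_right _ _).trans hn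
  have hl1 : 1 < Real.log n := by
    rw [Real.lt_log_iff_exp_lt (by linarith)]
    have := Real.exp_one_lt_d9
    linarith
  have hll : 0 < Real.log (Real.log n) := Real.log_pos hl1
  refine Real.rpow_le_rpow_of_exponent_le (by linarith) ?_
  have : c / Real.log (Real.log n) ≤ c' / Real.log (Real.log n) :=
    div_le_div_of_nonneg_right ((le_max_left _ _).trans hc'.le) hll.le
  linarith

end Pool.Agent.Y821.DD
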